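import Pool.Agent.H463R3.PSLn

/-! # There is no uniform total closure bound for the non-alternating finite simple groups

For odd `n` the special linear group `SL(n, 3)` is not totally `k`-closed for any `k < n`: in its
action on the vectors of `(ℤ/3)^n`, the map `v ↦ -v` preserves every orbit on `k`-tuples. -/

namespace Pool.Agent.Results.MP_d08dce_al.UnboundedClosure

open Matrix

/-- The `k`-closure of a group `G` acting on `Ω`: all permutations of `Ω` mapping every `G`-orbit
on `k`-tuples of elements of `Ω` onto itself. -/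
def kClosure (k : ℕ) (G Ω : Type) [Group G] [MulAction G Ω] : Set (Equiv.Perm Ω) :=
  {x | ∀ t : Fin k → Ω,
    (fun (s : Fin k → Ω) (i : Fin k) => x (s i)) '' MulAction.orbit G t = MulAction.orbit G t}

/-- A group is totally `k`-closed if in every faithful action on a finite set every permutation in
its `k`-closure comes from an element of the group, and conversely. -/
def TotallyClosed (k : ℕ) (G : Type) [Group G] : Prop :=
  ∀ (Ω : Type) [Finite Ω] [MulAction G Ω] [FaithfulSMul G Ω],
    kClosure k G Ω = Set.range (MulAction.toPerm : G → Equiv.Perm Ω)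

section Closure

variable {ι : Type} [Fintype ι] [DecidableEq ι]

theorem exists_neg (hodd : Odd (Fintype.card ι)) {k : ℕ} (hk : k < Fintype.card ι)
    (t : Fin k → ι → ZMod 3) :
    ∃ h : SpecialLinearGroup ι (ZMod 3), ∀ i, h • t i = -(t i) := by
  have : Fact (Nat.Prime 3) := ⟨by norm_num⟩
  obtain ⟨w, hw, hw0⟩ : ∃ w : ι → ZMod 3, (Matrix.of t) *ᵥ w = 0 ∧ w ≠ 0 := by
    have h1 : LinearMap.ker (Matrix.mulVecLin (Matrix.of t)) ≠ ⊥ := by
      apply LinearMap.ker_ne_bot_of_finrank_lt
      simpa using hk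
    obtain ⟨w, hw, hw0⟩ := (Submodule.ne_bot_iff _).mp h1
    exact ⟨w, by simpa using hw, hw0⟩
  obtain ⟨j, hj⟩ : ∃ j, w j ≠ 0 := by
    by_contra hcon
    push Not at hcon
    exact hw0 (funext hcon)
  have hdot : w ⬝ᵥ (Pi.single j (w j)⁻¹ : ι → ZMod 3) = 1 := by
    rw [dotProduct_single, mul_inv_cancel₀ hj]
  have hdet : det (-(1 + vecMulVec (Pi.single j (w j)⁻¹ : ι → ZMod 3) w)) = 1 := by
    rw [det_neg, hodd.neg_one_pow, vecMulVec_eq Unit,
      det_one_add_replicateCol_mul_replicateRow, hdot]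
    rfl
  let h : Matrix.SpecialLinearGroup ι (ZMod 3) := ⟨_, hdet⟩
  have hcoe : (h : Matrix ι ι (ZMod 3)) =
    -(1 + vecMulVec (Pi.single j (w j)⁻¹ : ι → ZMod 3) w) := rfl
  refine ⟨h, fun i => ?_⟩
  rw [Matrix.SpecialLinearGroup.smul_def, smul_eq_mulVec, hcoe]
  rw [neg_mulVec, add_mulVec, one_mulVec, vecMulVec_mulVec]
  have : w ⬝ᵥ t i = 0 := by
    have := congrFun hw i
    rw [dotProduct_comm]
    exact this
  rw [this]
  simp

theorem not_totallyClosed (hodd : Odd (Fintype.card ι)) {k : ℕ} (hk : k < Fintype.card ι) :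
    ¬ TotallyClosed k (SpecialLinearGroup ι (ZMod 3)) := by
  intro h
  have : Fact (Nat.Prime 3) := ⟨by norm_num⟩
  have hf : FaithfulSMul (SpecialLinearGroup ι (ZMod 3)) (ι → ZMod 3) := by
    constructor
    intro a b hab
    apply Subtype.ext
    apply Matrix.ext_of_mulVec_single
    intro i
    have := hab (Pi.single i 1)
    rwa [Matrix.SpecialLinearGroup.smul_def, Matrix.SpecialLinearGroup.smul_def] at this
  have h1 := h (ι → ZMod 3)
  have h2 : (Equiv.neg (ι → ZMod 3)) ∈
      kClosure k (SpecialLinearGroup ι (ZMod 3)) (ι → ZMod 3) := by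
    intro t
    have key : ∀ s : Fin k → ι → ZMod 3, s ∈ MulAction.orbit (SpecialLinearGroup ι (ZMod 3)) t →
        (fun i => (Equiv.neg (ι → ZMod 3)) (s i)) ∈
          MulAction.orbit (SpecialLinearGroup ι (ZMod 3)) t := by
      intro s hs
      obtain ⟨a, ha⟩ := exists_neg hodd hk s
      have : (fun i => (Equiv.neg (ι → ZMod 3)) (s i)) = a • s := by
        funext i
        rw [Pi.smul_apply, ha]
        rfl
      rw [this]
      obtain ⟨b, hb⟩ := hs
      exact ⟨a * b, by rw [← hb]; exact mul_smul a b t⟩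
    ext s
    constructor
    · rintro ⟨r, hr, rfl⟩
      exact key r hr
    · intro hs
      refine ⟨_, key s hs, ?_⟩
      funext i
      exact neg_neg _
  rw [h1] at h2
  obtain ⟨g, hg⟩ := h2
  have h3 : (g : Matrix ι ι (ZMod 3)) = -1 := by
    apply Matrix.ext_of_mulVec_single
    intro i
    have := congrArg (fun e : Equiv.Perm (ι → ZMod 3) => e (Pi.single i 1)) hg
    simp only [MulAction.toPerm_apply, Matrix.SpecialLinearGroup.smul_def, smul_eq_mulVec] at this
    rw [this, neg_mulVec, one_mulVec]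
    rfl
  have h4 := g.2
  rw [h3, det_neg, hodd.neg_one_pow, det_one] at h4
  revert h4
  decide

end Closure

section Order

theorem zmod_cases : ∀ r : ZMod 3, r = 0 ∨ r = 1 ∨ r = 2 := by decide

theorem two_ne_one : (2 : ZMod 3) ≠ 1 := by decide

theorem isSimpleGroup_SL {ι : Type} [Fintype ι] [DecidableEq ι] (hodd : Odd (Fintype.card ι))
    (h3 : 3 ≤ Fintype.card ι) : IsSimpleGroup (SpecialLinearGroup ι (ZMod 3)) := by
  have : Fact (Nat.Prime 3) := ⟨by norm_num⟩
  have h1 : IsSimpleGroup (ProjectiveSpecialLinearGroup ι (ZMod 3)) :=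
    Pool.Agent.H463R3.PSLn.isSimpleGroup_PSL h3
  have h2 : Subgroup.center (SpecialLinearGroup ι (ZMod 3)) = ⊥ := by
    rw [Subgroup.eq_bot_iff_forall]
    intro A hA
    obtain ⟨r, hr, hA⟩ := Matrix.SpecialLinearGroup.mem_center_iff.mp hA
    have hr1 : r = 1 := by
      obtain ⟨m, hm⟩ := hodd
      rw [hm, pow_succ, pow_mul] at hr
      rcases zmod_cases r with rfl | rfl | rfl
      · simp at hr
      · rfl
      · exfalso
        rw [show (2 : ZMod 3) ^ 2 = 1 from rfl, one_pow, one_mul] at hr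
        exact two_ne_one hr
    apply Subtype.ext
    rw [← hA, hr1]
    simp
  let e : SpecialLinearGroup ι (ZMod 3) ⧸ Subgroup.center (SpecialLinearGroup ι (ZMod 3)) ≃*
      SpecialLinearGroup ι (ZMod 3) :=
    (QuotientGroup.quotientMulEquivOfEq h2).trans QuotientGroup.quotientBot
  have hnt : Nontrivial (SpecialLinearGroup ι (ZMod 3)) := e.symm.toEquiv.nontrivial
  exact IsSimpleGroup.isSimpleGroup_of_surjective (G := ProjectiveSpecialLinearGroup ι (ZMod 3))
    e.toMonoidHom e.surjective

theorem card_le (ι : Type) [Fintype ι] [DecidableEq ι] :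
    Nat.card (SpecialLinearGroup ι (ZMod 3)) ≤ 3 ^ (Fintype.card ι * Fintype.card ι) := by
  have h1 : Nat.card (SpecialLinearGroup ι (ZMod 3)) ≤ Nat.card (Matrix ι ι (ZMod 3)) :=
    Nat.card_le_card_of_injective (fun A => (A : Matrix ι ι (ZMod 3))) Subtype.val_injective
  refine h1.trans (le_of_eq ?_)
  rw [show Nat.card (Matrix ι ι (ZMod 3)) = Nat.card (ι → ι → ZMod 3) from rfl,
    Nat.card_eq_fintype_card]
  simp [pow_mul]

/-- The unipotent block upper triangular matrices. -/
def unip (j : ℕ) : Multiplicative (Matrix (Fin (j + 1)) (Fin j) (ZMod 3)) →*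
    SpecialLinearGroup (Fin (j + 1) ⊕ Fin j) (ZMod 3) where
  toFun A := ⟨fromBlocks 1 (Multiplicative.toAdd A) 0 1, by
    rw [det_fromBlocks_zero₂₁, det_one, det_one, one_mul]⟩
  map_one' := by
    apply Subtype.ext
    exact fromBlocks_one
  map_mul' A B := by
    apply Subtype.ext
    change fromBlocks 1 (Multiplicative.toAdd A + Multiplicative.toAdd B) 0 1 =
      fromBlocks 1 (Multiplicative.toAdd A) 0 1 * fromBlocks 1 (Multiplicative.toAdd B) 0 1
    rw [fromBlocks_multiply]
    simp [add_comm]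

theorem unip_injective (j : ℕ) : Function.Injective (unip j) := by
  intro A B h
  have h1 : fromBlocks 1 (Multiplicative.toAdd A) 0 1 =
      (fromBlocks 1 (Multiplicative.toAdd B) 0 1 :
        Matrix (Fin (j + 1) ⊕ Fin j) (Fin (j + 1) ⊕ Fin j) (ZMod 3)) := congrArg Subtype.val h
  have h2 := (fromBlocks_inj.mp h1).2.1
  exact Multiplicative.toAdd.injective h2

theorem dvd_card (j : ℕ) :
    3 ^ (j * (j + 1)) ∣ Nat.card (SpecialLinearGroup (Fin (j + 1) ⊕ Fin j) (ZMod 3)) := by
  have h1 := Subgroup.card_dvd_of_injective (unip j) (unip_injective j)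
  have h2 : Nat.card (Multiplicative (Matrix (Fin (j + 1)) (Fin j) (ZMod 3))) =
      3 ^ (j * (j + 1)) := by
    rw [show Nat.card (Multiplicative (Matrix (Fin (j + 1)) (Fin j) (ZMod 3))) =
      Nat.card (Fin (j + 1) → Fin j → ZMod 3) from rfl, Nat.card_eq_fintype_card]
    simp [pow_mul]
  rwa [h2] at h1

theorem factorial_bound (r : ℕ) (hr : 12 ≤ r) : 2 * 3 ^ (4 * r + 1) < (2 * r + 1).factorial := by
  induction r, hr using Nat.le_induction with
  | base => decide +kernel
  | succ r hr ih =>
    rw [show 2 * (r + 1) + 1 = (2 * r + 1) + 1 + 1 by ring, Nat.factorial_succ,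
      Nat.factorial_succ]
    have h1 : 2 * 3 ^ (4 * (r + 1) + 1) = 81 * (2 * 3 ^ (4 * r + 1)) := by ring
    rw [h1]
    have h2 : 81 ≤ (2 * r + 1 + 1 + 1) * (2 * r + 1 + 1) := by nlinarith
    calc 81 * (2 * 3 ^ (4 * r + 1)) < 81 * (2 * r + 1).factorial := by omega
      _ ≤ (2 * r + 1 + 1 + 1) * (2 * r + 1 + 1) * (2 * r + 1).factorial :=
          Nat.mul_le_mul_right _ h2
      _ = _ := by ring

theorem not_alternating (j : ℕ) (hj : 3 ≤ j) (m : ℕ) :
    IsEmpty (SpecialLinearGroup (Fin (j + 1) ⊕ Fin j) (ZMod 3) ≃* alternatingGroup (Fin m)) := by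
  constructor
  intro e
  have : Fact (Nat.Prime 3) := ⟨by norm_num⟩
  have hcard := Nat.card_congr e.toEquiv
  have h1 := dvd_card j
  have h2 := card_le (Fin (j + 1) ⊕ Fin j)
  rw [hcard] at h1 h2
  have hr : 12 ≤ j * (j + 1) := by nlinarith
  have h3 : Nat.card (alternatingGroup (Fin m)) ∣ m.factorial := by
    have := Subgroup.card_subgroup_dvd_card (alternatingGroup (Fin m))
    rwa [Nat.card_eq_fintype_card (α := Equiv.Perm (Fin m)), Fintype.card_perm,
      Fintype.card_fin] at this
  have h4 : 3 ^ (j * (j + 1)) ∣ m.factorial := h1.trans h3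
  have h5 : j * (j + 1) ≤ padicValNat 3 m.factorial :=
    (padicValNat_dvd_iff_le (Nat.factorial_ne_zero m)).mp h4
  have hm0 : m ≠ 0 := by
    rintro rfl
    simp at h5
    omega
  have h6 : (3 - 1) * padicValNat 3 m.factorial < m :=
    sub_one_mul_padicValNat_factorial_lt_of_ne_zero 3 hm0
  have h7 : 2 * (j * (j + 1)) + 1 ≤ m := by omega
  have h8 : m.factorial = 2 * Nat.card (alternatingGroup (Fin m)) := by
    have : Nontrivial (Fin m) := Fin.nontrivial_iff_two_le.mpr (by omega)
    have := two_mul_nat_card_alternatingGroup (α := Fin m)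
    rw [this, Nat.card_eq_fintype_card (α := Equiv.Perm (Fin m)), Fintype.card_perm,
      Fintype.card_fin]
  have h9 := factorial_bound (j * (j + 1)) hr
  have h10 : (2 * (j * (j + 1)) + 1).factorial ≤ m.factorial := Nat.factorial_le h7
  have h11 : Fintype.card (Fin (j + 1) ⊕ Fin j) * Fintype.card (Fin (j + 1) ⊕ Fin j) =
      4 * (j * (j + 1)) + 1 := by
    simp only [Fintype.card_sum, Fintype.card_fin]
    ring
  rw [h11] at h2
  omega

end Order

/-- **Main theorem.**  For every `k` there is a finite simple group, not isomorphic to an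
alternating group, which is not totally `k`-closed; so no fixed `k` works for all non-alternating
finite simple groups.  Moreover `SL(n, 3)`, for `n` odd, is not totally `k`-closed for any
`k < n` (and it is simple for odd `n ≥ 3`). -/
theorem result :
    (∀ k : ℕ, ∃ (G : Type) (_ : Group G), Finite G ∧ IsSimpleGroup G ∧
      (∀ m : ℕ, IsEmpty (G ≃* alternatingGroup (Fin m))) ∧ ¬ TotallyClosed k G) ∧
    ∀ n k : ℕ, Odd n → k < n →
      ¬ TotallyClosed k (SpecialLinearGroup (Fin n) (ZMod 3)) ∧
      (3 ≤ n → IsSimpleGroup (SpecialLinearGroup (Fin n) (ZMod 3))) := by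
  refine ⟨fun k => ?_, fun n k hn hk => ⟨not_totallyClosed (by simpa using hn) (by simpa using hk),
    fun h3 => isSimpleGroup_SL (by simpa using hn) (by simpa using h3)⟩⟩
  have hodd : Odd (Fintype.card (Fin (k + 3 + 1) ⊕ Fin (k + 3))) := by
    simp only [Fintype.card_sum, Fintype.card_fin]
    exact ⟨k + 3, by ring⟩
  refine ⟨SpecialLinearGroup (Fin (k + 3 + 1) ⊕ Fin (k + 3)) (ZMod 3), inferInstance,
    inferInstance, isSimpleGroup_SL hodd ?_, not_alternating (k + 3) (by omega),
    not_totallyClosed hodd ?_⟩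
  · simp only [Fintype.card_sum, Fintype.card_fin]; omega
  · simp only [Fintype.card_sum, Fintype.card_fin]; omega

end Pool.Agent.Results.MP_d08dce_al.UnboundedClosure
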